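import Pool.Agent.N89.BD.Stm

set_option autoImplicit false

/-!
# Project BD (helper89), task MOA: systems of monomials separate arbitrary points
-/

namespace Pool.Agent.N769.BD

open MvPolynomial Finset Pool.Agent.W659 Pool.Agent.W659.SA Pool.Agent.N89.GS Pool.Agent.N89.BD

theorem minor {k X : Type} [Field k] (v w : X → k) (hw : w ≠ 0) (h : ∀ c : k, v ≠ c • w) :
    ∃ a b, w b * v a - w a * v b ≠ 0 := by
  by_contra hcon
  push Not at hcon
  obtain ⟨b, hb⟩ : ∃ b, w b ≠ 0 := by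
    by_contra h3
    push Not at h3
    exact hw (funext h3)
  apply h (v b / w b)
  funext a
  have h3 := hcon a b
  rw [Pi.smul_apply, smul_eq_mul]
  field_simp
  linear_combination h3

theorem prod_one {k X : Type} [Field k] [Fintype X] [DecidableEq X] (v : X → k) (a : X) :
    ∏ n, v n ^ (Pi.single a 1 : X → ℕ) n = v a := by
  rw [Finset.prod_eq_single a]
  · simp
  · intro b _ hb
    rw [Pi.single_eq_of_ne hb, pow_zero]
  · intro h
    exact absurd (mem_univ _) h

theorem indep {k : Type} [Field k] {l : ℕ} {ι : Type} (v : Fin l → ι → k)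
    (h : ∀ c : Fin l → k, (∀ x, ∑ i, c i * v i x = 0) → ∀ i, c i = 0) : LinearIndependent k v := by
  rw [Fintype.linearIndependent_iff]
  intro c hc
  apply h c
  intro x
  have := congrFun hc x
  simpa [Finset.sum_apply] using this

section

variable {k : Type} [Field k] {r s m l : ℕ} (V : Fin l → Fin r → Fin 3 → k)
  (u : Fin l → Fin s → k) (T : Fin l → Fin m → k)

/-- the values of a monomial at the points -/
def mf (μ : Fin r → Fin 3 → ℕ) (x : Fin s → ℕ) (α : Fin m → ℕ) : Fin l → k := fun i =>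
  (∏ e, ∏ j, V i e j ^ μ e j) * ((∏ n, u i n ^ x n) * ∏ n, T i n ^ α n)

theorem mf_mul (μ μ' : Fin r → Fin 3 → ℕ) (x x' : Fin s → ℕ) (α α' : Fin m → ℕ) :
    mf V u T μ x α * mf V u T μ' x' α' = mf V u T (μ + μ') (x + x') (α + α') := by
  funext i
  simp only [mf, Pi.mul_apply, Pi.add_apply, pow_add, prod_mul_distrib]
  ring

theorem mf_V (e : Fin r) (j : Fin 3) (i : Fin l) :
    mf V u T (Pi.single e (Pi.single j 1)) 0 0 i = V i e j := by
  have h1 : ∏ e', ∏ j', V i e' j' ^ (Pi.single e (Pi.single j 1) : Fin r → Fin 3 → ℕ) e' j' =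
      V i e j := by
    rw [Finset.prod_eq_single e]
    · rw [Pi.single_eq_same]
      exact prod_one (V i e) j
    · intro b _ hb
      rw [Pi.single_eq_of_ne hb]
      simp
    · intro h
      exact absurd (mem_univ _) h
  unfold mf
  rw [h1]
  simp

theorem mf_u (n : Fin s) (i : Fin l) : mf V u T 0 (Pi.single n 1) 0 i = u i n := by
  unfold mf
  rw [prod_one]
  simp

theorem mf_T (n : Fin m) (i : Fin l) : mf V u T 0 0 (Pi.single n 1) i = T i n := by
  unfold mf
  rw [prod_one]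
  simp

theorem mf_one (i : Fin l) : mf V u T 0 0 0 i = 1 := by
  unfold mf
  simp

/-- the functions on the set of the points given by the forms of multidegree `n` in `V`, of degree
at most `y i` in `u i` and of degree `t` in `T` -/
def W (n : Fin r → ℕ) (y : Fin s → ℕ) (t : ℕ) : Submodule k (Fin l → k) :=
  Submodule.span k {f | ∃ (μ : Fin r → Fin 3 → ℕ) (x : Fin s → ℕ) (α : Fin m → ℕ),
    (∀ e, ∑ j, μ e j = n e) ∧ (∀ i, x i ≤ y i) ∧ ∑ i, α i = t ∧ f = mf V u T μ x α}

variable {V u T}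

theorem W_mul {n n' : Fin r → ℕ} {y y' : Fin s → ℕ} {t t' : ℕ} {f f' : Fin l → k}
    (hf : f ∈ W V u T n y t) (hf' : f' ∈ W V u T n' y' t') :
    f * f' ∈ W V u T (n + n') (y + y') (t + t') := by
  have h := Submodule.mul_mem_mul hf hf'
  unfold W at h
  rw [Submodule.span_mul_span] at h
  refine Submodule.span_mono ?_ h
  rintro _ ⟨_, ⟨μ, x, α, h1, h2, h3, rfl⟩, _, ⟨μ', x', α', h1', h2', h3', rfl⟩, rfl⟩
  refine ⟨μ + μ', x + x', α + α', fun e => ?_, fun i => Nat.add_le_add (h2 i) (h2' i), ?_,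
    mf_mul V u T _ _ _ _ _ _⟩
  · simp only [Pi.add_apply, sum_add_distrib, h1, h1']
  · simp only [Pi.add_apply, sum_add_distrib, h3, h3']

theorem mem_W {μ : Fin r → Fin 3 → ℕ} {x : Fin s → ℕ} {α : Fin m → ℕ} {n : Fin r → ℕ}
    {y : Fin s → ℕ} {t : ℕ} (h1 : ∀ e, ∑ j, μ e j = n e) (h2 : ∀ i, x i ≤ y i)
    (h3 : ∑ i, α i = t) : mf V u T μ x α ∈ W V u T n y t :=
  Submodule.subset_span ⟨μ, x, α, h1, h2, h3, rfl⟩

theorem sum_V (e : Fin r) (j : Fin 3) (e' : Fin r) :
    ∑ j', (Pi.single e (Pi.single j 1) : Fin r → Fin 3 → ℕ) e' j' = (Pi.single e 1 : Fin r → ℕ) e' := by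
  by_cases h : e' = e
  · subst h
    rw [Pi.single_eq_same, Pi.single_eq_same]
    simp
  · rw [Pi.single_eq_of_ne h, Pi.single_eq_of_ne h]
    simp

theorem single_le {X : Type} [DecidableEq X] (a b : X) : (Pi.single a 1 : X → ℕ) b ≤ 1 := by
  by_cases h : b = a
  · subst h
    rw [Pi.single_eq_same]
  · rw [Pi.single_eq_of_ne h]
    exact Nat.zero_le _

/-- a form vanishing at one point and not at another one -/
theorem exists_factor {i₀ j : Fin l} (hV : ∀ e, V j e ≠ 0) (hT : T j ≠ 0)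
    (h : ¬ (SameB (V i₀) (u i₀) (V j) (u j) ∧ ∃ c : k, T i₀ = c • T j)) :
    ∃ (n : Fin r → ℕ) (y : Fin s → ℕ) (t : ℕ), (∀ e, n e ≤ 1) ∧ (∀ i, y i ≤ 1) ∧ t ≤ 1 ∧
      ∃ f ∈ W V u T n y t, f i₀ ≠ 0 ∧ f j = 0 := by
  classical
  by_cases hs : SameB (V i₀) (u i₀) (V j) (u j)
  · have h1 : ∀ c : k, T i₀ ≠ c • T j := fun c hc => h ⟨hs, c, hc⟩
    obtain ⟨a, b, hab⟩ := minor (T i₀) (T j) hT h1
    refine ⟨0, 0, 1, fun _ => Nat.zero_le _, fun _ => Nat.zero_le _, le_rfl,
      T j b • mf V u T 0 0 (Pi.single a 1) - T j a • mf V u T 0 0 (Pi.single b 1),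
      Submodule.sub_mem _ (Submodule.smul_mem _ _ (mem_W (fun _ => by simp) (fun _ => le_rfl)
        (by simp))) (Submodule.smul_mem _ _ (mem_W (fun _ => by simp) (fun _ => le_rfl)
        (by simp))), ?_, ?_⟩
    · rw [Pi.sub_apply, Pi.smul_apply, Pi.smul_apply, mf_T, mf_T, smul_eq_mul, smul_eq_mul]
      exact hab
    · rw [Pi.sub_apply, Pi.smul_apply, Pi.smul_apply, mf_T, mf_T, smul_eq_mul, smul_eq_mul]
      ring
  by_cases hu : u i₀ = u j
  · have h1 : ∃ e, ∀ c : k, V i₀ e ≠ c • V j e := by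
      by_contra hcon
      push Not at hcon
      exact hs ⟨hcon, hu⟩
    obtain ⟨e, he⟩ := h1
    obtain ⟨a, b, hab⟩ := minor (V i₀ e) (V j e) (hV e) he
    refine ⟨Pi.single e 1, 0, 0, single_le e, fun _ => Nat.zero_le _, Nat.zero_le _,
      V j e b • mf V u T (Pi.single e (Pi.single a 1)) 0 0 -
        V j e a • mf V u T (Pi.single e (Pi.single b 1)) 0 0,
      Submodule.sub_mem _ (Submodule.smul_mem _ _ (mem_W (sum_V e a) (fun _ => le_rfl)
        (by simp))) (Submodule.smul_mem _ _ (mem_W (sum_V e b) (fun _ => le_rfl)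
        (by simp))), ?_, ?_⟩
    · rw [Pi.sub_apply, Pi.smul_apply, Pi.smul_apply, mf_V, mf_V, smul_eq_mul, smul_eq_mul]
      exact hab
    · rw [Pi.sub_apply, Pi.smul_apply, Pi.smul_apply, mf_V, mf_V, smul_eq_mul, smul_eq_mul]
      ring
  · obtain ⟨n, hn⟩ : ∃ n, u i₀ n ≠ u j n := by
      by_contra hcon
      push Not at hcon
      exact hu (funext hcon)
    refine ⟨0, Pi.single n 1, 0, fun _ => Nat.zero_le _, single_le n, Nat.zero_le _,
      mf V u T 0 (Pi.single n 1) 0 - u j n • mf V u T 0 0 0,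
      Submodule.sub_mem _ (mem_W (fun _ => by simp) (fun _ => le_rfl) (by simp))
        (Submodule.smul_mem _ _ (mem_W (fun _ => by simp) (fun _ => Nat.zero_le _)
        (by simp))), ?_, ?_⟩
    · rw [Pi.sub_apply, Pi.smul_apply, mf_u, mf_one, smul_eq_mul, mul_one]
      exact sub_ne_zero.2 hn
    · rw [Pi.sub_apply, Pi.smul_apply, mf_u, mf_one, smul_eq_mul, mul_one, sub_self]

/-- a form vanishing at several points and not at another one -/
theorem exists_prod {i₀ : Fin l} (hV : ∀ i e, V i e ≠ 0) (hT : ∀ i, T i ≠ 0)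
    (h : ∀ j, i₀ ≠ j → ¬ (SameB (V i₀) (u i₀) (V j) (u j) ∧ ∃ c : k, T i₀ = c • T j))
    (S : Finset (Fin l)) : i₀ ∉ S →
    ∃ (n : Fin r → ℕ) (y : Fin s → ℕ) (t : ℕ), (∀ e, n e ≤ S.card) ∧ (∀ i, y i ≤ S.card) ∧
      t ≤ S.card ∧ ∃ f ∈ W V u T n y t, f i₀ ≠ 0 ∧ ∀ j ∈ S, f j = 0 := by
  classical
  induction S using Finset.induction_on with
  | empty =>
    intro _
    refine ⟨0, 0, 0, fun _ => le_rfl, fun _ => le_rfl, le_rfl, mf V u T 0 0 0,
      mem_W (fun _ => by simp) (fun _ => le_rfl) (by simp), ?_, fun j hj => ?_⟩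
    · rw [mf_one]
      exact one_ne_zero
    · exact absurd hj (Finset.notMem_empty _)
  | insert j S hj ih =>
    intro hi
    rw [Finset.mem_insert, not_or] at hi
    obtain ⟨n, y, t, h1, h2, h3, f, hf, hf0, hf1⟩ := ih hi.2
    obtain ⟨n', y', t', h1', h2', h3', f', hf', hf0', hf1'⟩ :=
      exists_factor (hV j) (hT j) (h j hi.1)
    rw [Finset.card_insert_of_notMem hj]
    refine ⟨n + n', y + y', t + t', fun e => Nat.add_le_add (h1 e) (h1' e),
      fun i => Nat.add_le_add (h2 i) (h2' i), Nat.add_le_add h3 h3', f * f', W_mul hf hf',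
      mul_ne_zero hf0 hf0', fun i hi => ?_⟩
    rcases Finset.mem_insert.1 hi with rfl | hi
    · rw [Pi.mul_apply, hf1', mul_zero]
    · rw [Pi.mul_apply, hf1 i hi, zero_mul]

/-- monomials which do not vanish at a point -/
theorem exists_mono {i₀ : Fin l} (hV : ∀ e, V i₀ e ≠ 0) (hT : T i₀ ≠ 0) (n : Fin r → ℕ)
    (t : ℕ) : ∃ f ∈ W V u T n 0 t, f i₀ ≠ 0 := by
  classical
  have h2 : ∀ e, ∃ x, V i₀ e x ≠ 0 := by
    intro e
    by_contra h
    push Not at h
    exact hV e (funext h)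
  choose x hx using h2
  obtain ⟨z, hz⟩ : ∃ z, T i₀ z ≠ 0 := by
    by_contra h
    push Not at h
    exact hT (funext h)
  refine ⟨mf V u T (fun e => Pi.single (x e) (n e)) 0 (Pi.single z t),
    mem_W (fun e => by simp) (fun _ => le_rfl) (by simp), ?_⟩
  unfold mf
  refine mul_ne_zero ?_ (mul_ne_zero ?_ ?_)
  · rw [Finset.prod_ne_zero_iff]
    intro e _
    rw [Finset.prod_ne_zero_iff]
    intro b _
    by_cases hb : b = x e
    · subst hb
      exact pow_ne_zero _ (hx e)
    · simp [Pi.single_eq_of_ne hb]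
  · simp
  · rw [Finset.prod_ne_zero_iff]
    intro b _
    by_cases hb : b = z
    · subst hb
      exact pow_ne_zero _ hz
    · simp [Pi.single_eq_of_ne hb]

end

theorem main : S_MOA := by
  classical
  intro O k _ _ φ r s m q a b G ι Λ k₀ d e x₀ hd he hΛ l hl V u T hB hF hne
  apply indep
  intro c hc i₀
  have hl0 : 0 < l := i₀.pos
  obtain ⟨n, y, t, h1, h2, h3, f, hf, hf0, hf1⟩ := exists_prod (V := V) (u := u) (T := T)
    (i₀ := i₀) (fun i e => ((hB i).1 e).1) (fun i => (hF i).1) (fun j hj => hne i₀ j hj)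
    (univ.erase i₀) (Finset.notMem_erase _ _)
  rw [Finset.card_erase_of_mem (mem_univ _), Finset.card_univ, Fintype.card_fin] at h1 h2 h3
  obtain ⟨f', hf', hf0'⟩ := exists_mono (V := V) (u := u) (T := T) (i₀ := i₀)
    (fun e => ((hB i₀).1 e).1) (hF i₀).1 (d - n) (e - t)
  have hff := W_mul hf hf'
  have e1 : n + (d - n) = d := by
    funext i
    have h5 := h1 i
    have h6 := hd i
    simp only [Pi.add_apply, Pi.sub_apply]
    omega
  have e2 : t + (e - t) = e := by omega
  rw [e1, e2, add_zero] at hff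
  -- the relation
  have key : ∀ h ∈ W V u T d y e, ∑ i, c i * ((∏ n, u i n ^ x₀ n) * h i) = 0 := by
    intro h hh
    unfold W at hh
    induction hh using Submodule.span_induction with
    | mem h hh =>
      obtain ⟨μ, x, α, g1, g2, g3, rfl⟩ := hh
      obtain ⟨z, hz⟩ := hΛ μ (x₀ + x) α g1 (fun i => by
        have h5 := g2 i
        have h6 := h2 i
        simp only [Pi.add_apply]
        omega) g3
      have h5 := hc z
      rw [hz] at h5
      rw [← h5]
      refine Finset.sum_congr rfl fun i _ => ?_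
      unfold vl mon mf
      simp only [eval₂_mul, eval₂_prod, eval₂_pow, eval₂_X, Sum.elim_inl, Sum.elim_inr,
        Pi.add_apply, pow_add, Finset.prod_mul_distrib]
      ring
    | zero => simp
    | add x y _ _ hx hy =>
      simp only [Pi.add_apply, mul_add, Finset.sum_add_distrib, hx, hy, add_zero]
    | smul a x _ hx =>
      have h5 : ∑ i, c i * ((∏ n, u i n ^ x₀ n) * (a • x) i) =
          a * ∑ i, c i * ((∏ n, u i n ^ x₀ n) * x i) := by
        rw [Finset.mul_sum]
        refine Finset.sum_congr rfl fun i _ => ?_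
        rw [Pi.smul_apply, smul_eq_mul]
        ring
      rw [h5, hx, mul_zero]
  have hrel := key _ hff
  rw [Finset.sum_eq_single i₀] at hrel
  · refine (mul_eq_zero.1 hrel).resolve_right (mul_ne_zero ?_ (mul_ne_zero hf0 hf0'))
    exact Finset.prod_ne_zero_iff.2 fun n _ => pow_ne_zero _ ((hB i₀).2 n)
  · intro i _ hi
    rw [Pi.mul_apply, hf1 i (Finset.mem_erase.2 ⟨hi, mem_univ _⟩), zero_mul, mul_zero, mul_zero]
  · intro h
    exact absurd (mem_univ _) h

end Pool.Agent.N769.BD
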